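import Pool.Agent.MP_918781_an.Defs

/-! Basic objects used in the proof. -/

namespace Pool.Agent.MP_918781_an

open MeasureTheory Filter Topology Real
open scoped ENNReal ContDiff FourierTransform RealInnerProductSpace

/-- Unit vector of angle `θ`. -/
noncomputable def e (θ : ℝ) : E := !₂[cos θ, sin θ]

/-- The unit vector orthogonal to `e θ`. -/
noncomputable def e' (θ : ℝ) : E := !₂[-sin θ, cos θ]

/-- Smooth with compact support. -/
def Sm (u : E → ℝ) : Prop := ContDiff ℝ ∞ u ∧ HasCompactSupport u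

/-- Integral of the squared Laplacian. -/
noncomputable def NN (u : E → ℝ) : ℝ := ∫ x, (pd 0 (pd 0 u) x + pd 1 (pd 1 u) x) ^ 2

/-- Integral of the squared gradient. -/
noncomputable def DD (u : E → ℝ) : ℝ := ∫ x, ((pd 0 u x) ^ 2 + (pd 1 u x) ^ 2)

/-- Fourier transform of a real function on the plane. -/
noncomputable def ft (u : E → ℝ) (ξ : E) : ℂ := 𝓕 (fun x => (u x : ℂ)) ξ

/-- Rotated coordinates. -/
noncomputable def rot (θ : ℝ) (p : ℝ × ℝ) : E := p.1 • e θ + p.2 • e' θ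

lemma inner_eq (x y : E) : ⟪x, y⟫ = x 0 * y 0 + x 1 * y 1 := by
  simp [PiLp.inner_apply, Fin.sum_univ_two]; ring

lemma norm_sq_eq (x : E) : ‖x‖ ^ 2 = x 0 ^ 2 + x 1 ^ 2 := by
  rw [← real_inner_self_eq_norm_sq, inner_eq]; ring

@[simp] lemma e_zero (θ : ℝ) : e θ 0 = cos θ := rfl
@[simp] lemma e_one (θ : ℝ) : e θ 1 = sin θ := rfl
@[simp] lemma e'_zero (θ : ℝ) : e' θ 0 = -sin θ := rfl
@[simp] lemma e'_one (θ : ℝ) : e' θ 1 = cos θ := rfl

lemma rot_zero (θ : ℝ) (p : ℝ × ℝ) : rot θ p 0 = p.1 * cos θ - p.2 * sin θ := by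
  simp [rot]; ring

lemma rot_one (θ : ℝ) (p : ℝ × ℝ) : rot θ p 1 = p.1 * sin θ + p.2 * cos θ := by
  simp [rot]

lemma norm_e (θ : ℝ) : ‖e θ‖ = 1 := by
  have h : ‖e θ‖ ^ 2 = 1 := by rw [norm_sq_eq]; simp
  have := norm_nonneg (e θ)
  nlinarith

lemma norm_e' (θ : ℝ) : ‖e' θ‖ = 1 := by
  have h : ‖e' θ‖ ^ 2 = 1 := by rw [norm_sq_eq]; simp
  have := norm_nonneg (e' θ)
  nlinarith

lemma inner_rot_e (θ : ℝ) (p : ℝ × ℝ) : ⟪rot θ p, e θ⟫ = p.1 := by
  rw [inner_eq, rot_zero, rot_one]; simp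
  linear_combination p.1 * sin_sq_add_cos_sq θ

lemma inner_rot_e' (θ : ℝ) (p : ℝ × ℝ) : ⟪rot θ p, e' θ⟫ = p.2 := by
  rw [inner_eq, rot_zero, rot_one]; simp
  linear_combination p.2 * sin_sq_add_cos_sq θ

lemma inner_rot_rot (θ : ℝ) (p q : ℝ × ℝ) : ⟪rot θ p, rot θ q⟫ = p.1 * q.1 + p.2 * q.2 := by
  rw [inner_eq, rot_zero, rot_one, rot_zero, rot_one]
  linear_combination (p.1 * q.1 + p.2 * q.2) * sin_sq_add_cos_sq θ

lemma norm_rot_sq (θ : ℝ) (p : ℝ × ℝ) : ‖rot θ p‖ ^ 2 = p.1 ^ 2 + p.2 ^ 2 := by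
  rw [← real_inner_self_eq_norm_sq, inner_rot_rot]; ring

lemma rot_inner (θ : ℝ) (x : E) : rot θ (⟪x, e θ⟫, ⟪x, e' θ⟫) = x := by
  ext i
  fin_cases i
  · simp only [Fin.zero_eta, rot_zero, inner_eq]; simp
    linear_combination x 0 * sin_sq_add_cos_sq θ
  · simp only [Fin.mk_one, rot_one, inner_eq]; simp
    linear_combination x 1 * sin_sq_add_cos_sq θ

lemma continuous_e : Continuous e := by
  unfold e; fun_prop

lemma continuous_e' : Continuous e' := by
  unfold e'; fun_prop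

lemma e_add_pi (θ : ℝ) : e (θ + π) = -e θ := by
  ext i; fin_cases i <;> simp

/-- The rotated coordinates as a continuous linear equivalence. -/
noncomputable def rotL (θ : ℝ) : (ℝ × ℝ) ≃L[ℝ] E :=
  LinearEquiv.toContinuousLinearEquiv
    { toFun := rot θ
      invFun := fun x => (⟪x, e θ⟫, ⟪x, e' θ⟫)
      map_add' := fun p q => by simp only [rot, Prod.fst_add, Prod.snd_add, add_smul]; abel
      map_smul' := fun c p => by
        simp only [rot, Prod.smul_fst, Prod.smul_snd, smul_eq_mul, mul_smul, smul_add,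
          RingHom.id_apply]
      left_inv := fun p => by simp [inner_rot_e, inner_rot_e']
      right_inv := fun x => rot_inner θ x }

lemma rotL_apply (θ : ℝ) (p : ℝ × ℝ) : rotL θ p = rot θ p := rfl

lemma continuous_rot (θ : ℝ) : Continuous (rot θ) := (rotL θ).continuous

lemma contDiff_rot (θ : ℝ) {n : ℕ∞ω} : ContDiff ℝ n (rot θ) := (rotL θ).contDiff

/-- The orthonormal basis `e θ, e' θ`. -/
noncomputable def onb (θ : ℝ) : OrthonormalBasis (Fin 2) ℝ E :=
  OrthonormalBasis.mk (v := ![e θ, e' θ])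
    (by
      rw [orthonormal_iff_ite]
      intro i j
      fin_cases i <;> fin_cases j <;> simp [inner_eq, norm_e, norm_e'] <;> ring)
    (by
      intro x _
      rw [← rot_inner θ x]
      refine Submodule.add_mem _ (Submodule.smul_mem _ _ (Submodule.subset_span ⟨0, rfl⟩))
        (Submodule.smul_mem _ _ (Submodule.subset_span ⟨1, rfl⟩)))

lemma measurePreserving_rot (θ : ℝ) :
    MeasurePreserving (rot θ) (volume : Measure (ℝ × ℝ)) (volume : Measure E) := by
  have h1 := (onb θ).measurePreserving_repr_symm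
  have h2 := PiLp.volume_preserving_toLp (Fin 2)
  have h3 := (volume_preserving_finTwoArrow ℝ).symm
  have h := h1.comp (h2.comp h3)
  convert h using 1
  funext p
  simp only [Function.comp_apply]
  rw [← (onb θ).sum_repr_symm]
  simp [onb, rot, Fin.sum_univ_two, MeasurableEquiv.finTwoArrow]

lemma measurableEmbedding_rot (θ : ℝ) : MeasurableEmbedding (rot θ) :=
  (rotL θ).toHomeomorph.measurableEmbedding

lemma integral_rot {F : Type*} [NormedAddCommGroup F] [NormedSpace ℝ F] (θ : ℝ) (f : E → F) :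
    ∫ x, f x = ∫ p : ℝ × ℝ, f (rot θ p) :=
  ((measurePreserving_rot θ).integral_comp (measurableEmbedding_rot θ) f).symm

lemma integrable_rot {F : Type*} [NormedAddCommGroup F] (θ : ℝ) {f : E → F} :
    Integrable (fun p : ℝ × ℝ => f (rot θ p)) ↔ Integrable f :=
  (measurePreserving_rot θ).integrable_comp_emb (measurableEmbedding_rot θ)

lemma Sm.pd {u : E → ℝ} (hu : Sm u) (i : Fin 2) : Sm (pd i u) := by
  refine ⟨?_, ?_⟩
  · have h : ContDiff ℝ ∞ (fderiv ℝ u) := hu.1.fderiv_right (m := ∞) le_rfl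
    exact h.clm_apply contDiff_const
  · exact hu.2.fderiv_apply ℝ _

lemma tsupport_pd_subset (u : E → ℝ) (i : Fin 2) : tsupport (pd i u) ⊆ tsupport u :=
  tsupport_fderiv_apply_subset ℝ _

lemma Sm.continuous {u : E → ℝ} (hu : Sm u) : Continuous u := hu.1.continuous

lemma Sm.integrable {u : E → ℝ} (hu : Sm u) : Integrable u :=
  hu.continuous.integrable_of_hasCompactSupport hu.2

lemma IsTest.sm {Ω : Set E} {u : E → ℝ} (hu : IsTest Ω u) : Sm u := ⟨hu.1, hu.2.1⟩

lemma NN_nonneg (u : E → ℝ) : 0 ≤ NN u := integral_nonneg fun _ => sq_nonneg _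

lemma DD_nonneg (u : E → ℝ) : 0 ≤ DD u := integral_nonneg fun _ => by positivity

end Pool.Agent.MP_918781_an
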