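import Mathlib

/-! Definitions: De Giorgi perimeter, the space `H^2_0`, the first buckling eigenvalue and
optimal shapes, in the plane. -/

namespace Pool.Agent.MP_918781_an

open MeasureTheory Filter Topology
open scoped ENNReal ContDiff

/-- The Euclidean plane. -/
abbrev E : Type := EuclideanSpace ℝ (Fin 2)

/-- The partial derivative of a real function in the `i`-th coordinate direction. -/
noncomputable def pd (i : Fin 2) (u : E → ℝ) (x : E) : ℝ :=
  fderiv ℝ u x (EuclideanSpace.single i 1)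

/-- The De Giorgi perimeter: the supremum of the integrals over `Ω` of the divergence of `C^1`
compactly supported vector fields of norm at most one. -/
noncomputable def perimeter (Ω : Set E) : ℝ≥0∞ :=
  ⨆ (φ : E → E) (_ : ContDiff ℝ 1 φ) (_ : HasCompactSupport φ) (_ : ∀ x, ‖φ x‖ ≤ 1),
    ENNReal.ofReal (∫ x in Ω, (pd 0 (fun y => φ y 0) x + pd 1 (fun y => φ y 1) x))

/-- Smooth functions with compact support contained in `Ω`. -/
def IsTest (Ω : Set E) (u : E → ℝ) : Prop :=
  ContDiff ℝ ∞ u ∧ HasCompactSupport u ∧ tsupport u ⊆ Ω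

/-- The sequence `f` converges to `g` in `L^2(Ω)`, and `g` belongs to `L^2(Ω)`. -/
def L2Lim (Ω : Set E) (f : ℕ → E → ℝ) (g : E → ℝ) : Prop :=
  MemLp g 2 (volume.restrict Ω) ∧
    Tendsto (fun n => eLpNorm (f n - g) 2 (volume.restrict Ω)) atTop (𝓝 0)

/-- `u` belongs to `H^2_0(Ω)`, the closure of the test functions in the `H^2` norm, and has first
derivatives `g i` and second derivatives `H i j`. -/
def IsH20 (Ω : Set E) (u : E → ℝ) (g : Fin 2 → E → ℝ) (H : Fin 2 → Fin 2 → E → ℝ) : Prop :=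
  ∃ φ : ℕ → E → ℝ, (∀ n, IsTest Ω (φ n)) ∧ L2Lim Ω φ u ∧
    (∀ i, L2Lim Ω (fun n => pd i (φ n)) (g i)) ∧
    (∀ i j, L2Lim Ω (fun n => pd i (pd j (φ n))) (H i j))

/-- The first buckling eigenvalue: the infimum of the quotient of the integral of the squared
Laplacian by the integral of the squared gradient, over the nonzero elements of `H^2_0(Ω)`. -/
noncomputable def buckling (Ω : Set E) : ℝ≥0∞ :=
  ⨅ (u : E → ℝ) (g : Fin 2 → E → ℝ) (H : Fin 2 → Fin 2 → E → ℝ) (_ : IsH20 Ω u g H)
    (_ : ¬ u =ᵐ[volume.restrict Ω] 0),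
    ENNReal.ofReal ((∫ x in Ω, (H 0 0 x + H 1 1 x) ^ 2) / ∫ x in Ω, ((g 0 x) ^ 2 + (g 1 x) ^ 2))

/-- Competitors: open sets of finite measure and perimeter at most `p`. -/
def Admissible (p : ℝ) (Ω : Set E) : Prop :=
  IsOpen Ω ∧ volume Ω < ⊤ ∧ perimeter Ω ≤ ENNReal.ofReal p

/-- Optimal shapes: competitors minimising the first buckling eigenvalue. -/
def IsOptimal (p : ℝ) (Ω : Set E) : Prop :=
  Admissible p Ω ∧ ∀ Ω' : Set E, Admissible p Ω' → buckling Ω ≤ buckling Ω'

end Pool.Agent.MP_918781_an
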