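import Pool.Agent.MP_918781_an.Basic

/-! Fourier representation of the two quadratic forms, Plancherel, slices, polar coordinates. -/

namespace Pool.Agent.MP_918781_an

open MeasureTheory Filter Topology Real Set
open scoped ENNReal ContDiff FourierTransform RealInnerProductSpace SchwartzMap ComplexConjugate

/-- Plancherel for continuous integrable functions with integrable Fourier transform. -/
lemma planch_gen {V : Type*} [NormedAddCommGroup V] [InnerProductSpace ℝ V]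
    [FiniteDimensional ℝ V] [MeasurableSpace V] [BorelSpace V] {f g : V → ℂ}
    (hf : Integrable f) (hg : Integrable g) (hgc : Continuous g) (hg' : Integrable (𝓕 g)) :
    ∫ ξ, conj (𝓕 f ξ) * 𝓕 g ξ = ∫ x, conj (f x) * g x := by
  have h := VectorFourier.integral_sesq_fourierIntegral_eq_neg_flip (innerSL ℂ : ℂ →L⋆[ℂ] ℂ →L[ℂ] ℂ)
    (L := innerₗ V) continuous_fourierChar continuous_inner hf hg'
  have h2 : ∀ x, 𝓕⁻ (𝓕 g) x = g x := fun x =>
    congrFun (hgc.fourierInv_fourier_eq hg hg') x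
  have h3 : ∫ ξ, (innerSL ℂ (𝓕 f ξ)) (𝓕 g ξ) = ∫ x, (innerSL ℂ (f x)) (𝓕⁻ (𝓕 g) x) := by
    simpa using! h
  simp only [h2, innerSL_apply_apply, RCLike.inner_apply] at h3
  simpa [mul_comm] using h3

lemma planch_gen_sq {V : Type*} [NormedAddCommGroup V] [InnerProductSpace ℝ V]
    [FiniteDimensional ℝ V] [MeasurableSpace V] [BorelSpace V] {f : V → ℂ}
    (hf : Integrable f) (hfc : Continuous f) (hf' : Integrable (𝓕 f)) :
    ∫ ξ, ‖𝓕 f ξ‖ ^ 2 = ∫ x, ‖f x‖ ^ 2 := by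
  have h := planch_gen hf hf hfc hf'
  simp only [Complex.conj_mul'] at h
  apply Complex.ofReal_injective
  rw [← integral_complex_ofReal, ← integral_complex_ofReal]
  simpa using h

/-- A smooth compactly supported real function as a complex Schwartz function. -/
noncomputable def Sm.sch {u : E → ℝ} (hu : Sm u) : 𝓢(E, ℂ) :=
  HasCompactSupport.toSchwartzMap (f := fun x => (u x : ℂ))
    (hu.2.comp_left (g := fun t : ℝ => (t : ℂ)) (by simp))
    (Complex.ofRealCLM.contDiff.comp hu.1)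

lemma Sm.sch_apply {u : E → ℝ} (hu : Sm u) (x : E) : hu.sch x = (u x : ℂ) := rfl

lemma Sm.ft_eq {u : E → ℝ} (hu : Sm u) (ξ : E) : ft u ξ = (𝓕 hu.sch) ξ := rfl

lemma Sm.continuous_ft {u : E → ℝ} (hu : Sm u) : Continuous (ft u) :=
  (𝓕 hu.sch).continuous

lemma Sm.integrable_ft {u : E → ℝ} (hu : Sm u) : Integrable (ft u) :=
  (𝓕 hu.sch).integrable

lemma Sm.integrable_ofReal {u : E → ℝ} (hu : Sm u) : Integrable (fun x => (u x : ℂ)) :=
  hu.sch.integrable

lemma Sm.ft_decay {u : E → ℝ} (hu : Sm u) (k : ℕ) :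
    ∃ C, 0 ≤ C ∧ ∀ ξ, (1 + ‖ξ‖) ^ k * ‖ft u ξ‖ ≤ C := by
  have h := fun ξ => SchwartzMap.one_add_le_sup_seminorm_apply (𝕜 := ℝ) (m := (k, 0)) (k := k)
    (n := 0) le_rfl le_rfl (𝓕 hu.sch) ξ
  refine ⟨_, ?_, fun ξ => by simpa [hu.ft_eq] using h ξ⟩
  positivity

lemma Sm.ft_pd {u : E → ℝ} (hu : Sm u) (i : Fin 2) (ξ : E) :
    ft (Pool.Agent.MP_918781_an.pd i u) ξ = (2 * π * Complex.I * ξ i) * ft u ξ := by
  have h := SchwartzMap.fourier_lineDerivOp_eq hu.sch (EuclideanSpace.single i (1 : ℝ))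
  have h1 : LineDeriv.lineDerivOp (EuclideanSpace.single i (1 : ℝ)) hu.sch = (hu.pd i).sch := by
    ext x
    rw [SchwartzMap.lineDerivOp_apply_eq_fderiv, Sm.sch_apply]
    have hd : HasFDerivAt (fun x => (u x : ℂ)) (Complex.ofRealCLM.comp (fderiv ℝ u x)) x :=
      Complex.ofRealCLM.hasFDerivAt.comp x
        ((hu.1.differentiable (by simp)) x).hasFDerivAt
    have : fderiv ℝ hu.sch x = Complex.ofRealCLM.comp (fderiv ℝ u x) := hd.fderiv
    rw [this]; rfl
  rw [h1] at h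
  have ht : (fun x : E => inner ℝ x (EuclideanSpace.single i (1 : ℝ))).HasTemperateGrowth :=
    ((innerSL ℝ).flip _).hasTemperateGrowth
  rw [(hu.pd i).ft_eq, h, hu.ft_eq]
  simp only [smul_apply, SchwartzMap.smulLeftCLM_apply_apply ht]
  simp [EuclideanSpace.inner_single_right]
  ring

lemma Sm.integrable_pow_ft_sq {u : E → ℝ} (hu : Sm u) (k : ℕ) :
    Integrable (fun ξ => ‖ξ‖ ^ k * ‖ft u ξ‖ ^ 2) := by
  obtain ⟨C, hC, h⟩ := hu.ft_decay k
  refine (hu.integrable_ft.norm.const_mul C).mono' ?_ (Eventually.of_forall fun ξ => ?_)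
  · exact ((continuous_norm.pow k).mul (hu.continuous_ft.norm.pow 2)).aestronglyMeasurable
  · rw [Real.norm_of_nonneg (by positivity)]
    have h1 : ‖ξ‖ ^ k ≤ (1 + ‖ξ‖) ^ k := by gcongr; linarith
    have h2 := h ξ
    have h3 := norm_nonneg (ft u ξ)
    calc ‖ξ‖ ^ k * ‖ft u ξ‖ ^ 2 = (‖ξ‖ ^ k * ‖ft u ξ‖) * ‖ft u ξ‖ := by ring
      _ ≤ C * ‖ft u ξ‖ := by
        gcongr
        exact le_trans (by gcongr) h2

lemma Sm.planch {u : E → ℝ} (hu : Sm u) : ∫ x, u x ^ 2 = ∫ ξ, ‖ft u ξ‖ ^ 2 := by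
  have h := SchwartzMap.integral_norm_sq_fourier hu.sch
  simp only [Sm.sch_apply, Complex.norm_real, Real.norm_eq_abs, sq_abs] at h
  exact h.symm

lemma Sm.add {u v : E → ℝ} (hu : Sm u) (hv : Sm v) : Sm (fun x => u x + v x) :=
  ⟨hu.1.add hv.1, hu.2.add hv.2⟩

lemma Sm.integrable_sq {u : E → ℝ} (hu : Sm u) : Integrable (fun x => u x ^ 2) := by
  refine (hu.continuous.pow 2).integrable_of_hasCompactSupport ?_
  exact hu.2.comp_left (g := fun t : ℝ => t ^ 2) (by simp)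

lemma ft_add {u v : E → ℝ} (hu : Sm u) (hv : Sm v) (ξ : E) :
    ft (fun x => u x + v x) ξ = ft u ξ + ft v ξ := by
  have : (hu.add hv).sch = hu.sch + hv.sch := by ext x; simp [Sm.sch_apply]
  rw [(hu.add hv).ft_eq, this, FourierTransform.fourier_add]; rfl

lemma Sm.norm_ft_pd_sq {u : E → ℝ} (hu : Sm u) (i : Fin 2) (ξ : E) :
    ‖ft (Pool.Agent.MP_918781_an.pd i u) ξ‖ ^ 2 = (2 * π * ξ i) ^ 2 * ‖ft u ξ‖ ^ 2 := by
  rw [hu.ft_pd, norm_mul, mul_pow]
  congr 1
  simp [mul_pow]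

lemma Sm.ft_lap {u : E → ℝ} (hu : Sm u) (ξ : E) :
    ft (fun x => Pool.Agent.MP_918781_an.pd 0 (Pool.Agent.MP_918781_an.pd 0 u) x +
      Pool.Agent.MP_918781_an.pd 1 (Pool.Agent.MP_918781_an.pd 1 u) x) ξ =
      -((2 * π * ‖ξ‖) ^ 2 : ℝ) * ft u ξ := by
  rw [ft_add ((hu.pd 0).pd 0) ((hu.pd 1).pd 1), (hu.pd 0).ft_pd, (hu.pd 1).ft_pd, hu.ft_pd,
    hu.ft_pd, mul_pow, norm_sq_eq]
  push_cast
  linear_combination (4 * (π : ℂ) ^ 2 * ((ξ 0 : ℂ) ^ 2 + (ξ 1 : ℂ) ^ 2) * ft u ξ) * Complex.I_sq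

lemma Sm.NN_eq {u : E → ℝ} (hu : Sm u) : NN u = ∫ ξ, (2 * π * ‖ξ‖) ^ 4 * ‖ft u ξ‖ ^ 2 := by
  rw [NN, (((hu.pd 0).pd 0).add ((hu.pd 1).pd 1)).planch]
  congr 1; funext ξ
  rw [hu.ft_lap, norm_mul, mul_pow, norm_neg, Complex.norm_real, Real.norm_eq_abs, sq_abs]
  ring

lemma Sm.DD_eq {u : E → ℝ} (hu : Sm u) : DD u = ∫ ξ, (2 * π * ‖ξ‖) ^ 2 * ‖ft u ξ‖ ^ 2 := by
  have hi : ∀ i, Integrable (fun ξ => ‖ft (Pool.Agent.MP_918781_an.pd i u) ξ‖ ^ 2) := fun i => by
    simpa using (hu.pd i).integrable_pow_ft_sq 0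
  rw [DD, integral_add (hu.pd 0).integrable_sq (hu.pd 1).integrable_sq, (hu.pd 0).planch,
    (hu.pd 1).planch, ← integral_add (hi 0) (hi 1)]
  congr 1; funext ξ
  rw [hu.norm_ft_pd_sq, hu.norm_ft_pd_sq, mul_pow (2 * π) ‖ξ‖, norm_sq_eq]
  ring

/-- The Fourier transform in rotated coordinates. -/
lemma fourier_rot {f : E → ℂ} (θ η ξ : ℝ) :
    𝓕 f (rot θ (η, ξ)) =
      ∫ p : ℝ × ℝ, Complex.exp (↑(-2 * π * (p.1 * η + p.2 * ξ)) * Complex.I) * f (rot θ p) := by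
  rw [Real.fourier_eq', integral_rot θ]
  simp only [inner_rot_rot, smul_eq_mul]

/-- Polar coordinates. -/
lemma integral_polar {F : Type*} [NormedAddCommGroup F] [NormedSpace ℝ F] (f : E → F) :
    ∫ x, f x = ∫ p in Ioi (0 : ℝ) ×ˢ Ioo (-π) π, p.1 • f (p.1 • e p.2) := by
  rw [integral_rot 0, ← integral_comp_polarCoord_symm]
  refine setIntegral_congr_fun (measurableSet_Ioi.prod measurableSet_Ioo) fun p _ => ?_
  simp only [polarCoord_symm_apply]
  congr 2
  ext i; fin_cases i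
  · simp [rot_zero]
  · simp [rot_one]

lemma integrableOn_polar {F : Type*} [NormedAddCommGroup F] [NormedSpace ℝ F] {f : E → F}
    (hf : Integrable f) :
    IntegrableOn (fun p : ℝ × ℝ => p.1 • f (p.1 • e p.2)) (Ioi (0 : ℝ) ×ˢ Ioo (-π) π) := by
  have h0 : Integrable (fun p : ℝ × ℝ => f (rot 0 p)) := (integrable_rot 0).2 hf
  have h1 := (integrableOn_image_iff_integrableOn_abs_det_fderiv_smul volume
    polarCoord.open_target.measurableSet
    (fun p _ => (hasFDerivAt_polarCoord_symm p).hasFDerivWithinAt)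
    polarCoord.symm.injOn (fun p : ℝ × ℝ => f (rot 0 p))).1 h0.integrableOn
  refine h1.congr_fun (fun p hp => ?_) polarCoord.open_target.measurableSet
  have hp1 : 0 < p.1 := hp.1
  simp only [det_fderivPolarCoordSymm, abs_of_pos hp1, polarCoord_symm_apply]
  congr 2
  ext i; fin_cases i
  · simp [rot_zero]
  · simp [rot_one]

/-- Polar coordinates as an iterated integral, angle outside. -/
lemma integral_polar' {f : E → ℝ} (hf : Integrable f) :
    ∫ x, f x = ∫ θ in (-π)..π, ∫ r in Ioi (0 : ℝ), r * f (r • e θ) := by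
  have h := integrableOn_polar hf
  rw [integral_polar, intervalIntegral.integral_of_le (by linarith [pi_pos]),
    integral_Ioc_eq_integral_Ioo, Measure.volume_eq_prod, ← Measure.prod_restrict]
  rw [IntegrableOn, Measure.volume_eq_prod, ← Measure.prod_restrict] at h
  rw [integral_prod_symm _ h]
  simp

lemma intervalIntegrable_polar {f : E → ℝ} (hf : Integrable f) :
    IntervalIntegrable (fun θ => ∫ r in Ioi (0 : ℝ), r * f (r • e θ)) volume (-π) π := by
  have h := integrableOn_polar hf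
  rw [IntegrableOn, Measure.volume_eq_prod, ← Measure.prod_restrict] at h
  rw [intervalIntegrable_iff_integrableOn_Ioo_of_le (by linarith [pi_pos])]
  have h2 := h.integral_prod_right
  simp only [smul_eq_mul] at h2
  exact h2

end Pool.Agent.MP_918781_an
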